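import Pool.Agent.W623.SecC.Defs

set_option autoImplicit false

/-! Project SC of helper623, part A7: the generator is an `N`-th power up to units at all places. -/

open Polynomial

namespace Pool.Agent.W368.SecC

open Pool.Agent.W623.SecC WeierstrassCurve.Affine WeierstrassCurve.Affine.CoordinateRing

universe u v

variable {K : Type u} {Ω : Type v} [Field K] [Field Ω]

lemma ev_mk (W : WeierstrassCurve.Affine K) (ι : K →+* Ω) (z w : Ω)
    (h : W.polynomial.eval₂ (eval₂RingHom ι z) w = 0) (g : K[X][X]) :
    ev W ι z w h (CoordinateRing.mk W g) = g.eval₂ (eval₂RingHom ι z) w := by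
  unfold ev CoordinateRing.mk
  exact AdjoinRoot.lift_mk h g

lemma ev_basis (W : WeierstrassCurve.Affine K) (ι : K →+* Ω) (z w : Ω)
    (h : W.polynomial.eval₂ (eval₂RingHom ι z) w = 0) (p q : K[X]) :
    ev W ι z w h (p • (1 : W.CoordinateRing) + q • CoordinateRing.mk W X) =
      p.eval₂ ι z + q.eval₂ ι z * w := by
  rw [CoordinateRing.smul, CoordinateRing.smul, mul_one, map_add, map_mul, ev_mk, ev_mk, ev_mk]
  simp

lemma ev_X (W : WeierstrassCurve.Affine K) (ι : K →+* Ω) (z w : Ω)
    (h : W.polynomial.eval₂ (eval₂RingHom ι z) w = 0) (x : K) :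
    ev W ι z w h (XClass W x) = z - ι x := by
  unfold XClass
  rw [ev_mk]
  simp

lemma ev_Y (W : WeierstrassCurve.Affine K) (ι : K →+* Ω) (z w : Ω)
    (h : W.polynomial.eval₂ (eval₂RingHom ι z) w = 0) (y : K) :
    ev W ι z w h (YClass W (C y)) = w - ι y := by
  unfold YClass
  rw [ev_mk]
  simp

/-- the cubic polynomial -/
noncomputable def cub (e : Fin 3 → K) : K[X] := ∏ i, (X - C (e i))

lemma w_sq (e : Fin 3 → K) (W : WeierstrassCurve.Affine K) (hW : W = crv e) (ι : K →+* Ω)
    (z w : Ω) (h : W.polynomial.eval₂ (eval₂RingHom ι z) w = 0) :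
    w ^ 2 = (z - ι (e 0)) * (z - ι (e 1)) * (z - ι (e 2)) := by
  subst hW
  rw [WeierstrassCurve.Affine.polynomial] at h
  simp [crv, eval₂_pow] at h
  linear_combination h

lemma val_eval (O : ValuationSubring Ω) (ι : K →+* Ω) (hι : ∀ c : K, ι c ∈ O) (z : Ω)
    (hz : 1 < O.valuation z) (p : K[X]) (hp : p ≠ 0) :
    O.valuation (p.eval₂ ι z) = O.valuation z ^ p.natDegree := by
  have hle : ∀ c : K, O.valuation (ι c) ≤ 1 := fun c => (O.valuation_le_one_iff _).2 (hι c)
  have h1 : ∀ c : K, c ≠ 0 → O.valuation (ι c) = 1 := by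
    intro c hc
    refine le_antisymm (hle c) ?_
    have h2 := hle c⁻¹
    rw [map_inv₀, map_inv₀] at h2
    have h3 : O.valuation (ι c) ≠ 0 := (Valuation.ne_zero_iff _).2 ((map_ne_zero ι).2 hc)
    exact (inv_le_one₀ (zero_lt_iff.2 h3)).1 h2
  have hz0 : O.valuation z ≠ 0 := fun h => by rw [h] at hz; exact not_lt_zero hz
  rw [eval₂_eq_sum_range, Finset.sum_range_succ]
  have htop : O.valuation (ι (p.coeff p.natDegree) * z ^ p.natDegree) =
      O.valuation z ^ p.natDegree := by
    rw [map_mul, map_pow, h1 _ (by rw [coeff_natDegree]; exact leadingCoeff_ne_zero.2 hp),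
      one_mul]
  rw [Valuation.map_add_eq_of_lt_right, htop]
  rw [htop]
  refine Valuation.map_sum_lt _ (pow_ne_zero _ hz0) fun i hi => ?_
  rw [map_mul, map_pow]
  calc O.valuation (ι (p.coeff i)) * O.valuation z ^ i ≤ 1 * O.valuation z ^ i :=
        mul_le_mul_left (hle _) _
    _ = O.valuation z ^ i := one_mul _
    _ < O.valuation z ^ p.natDegree := pow_lt_pow_right₀ hz (Finset.mem_range.1 hi)

lemma finish (O : ValuationSubring Ω) (a t : Ω) (N : ℕ) (ht : t ≠ 0)
    (h : O.valuation a = O.valuation t ^ N) : a / t ^ N ∈ O ∧ t ^ N / a ∈ O := by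
  have h1 : O.valuation t ^ N ≠ 0 := pow_ne_zero _ ((Valuation.ne_zero_iff _).2 ht)
  constructor
  · rw [← O.valuation_le_one_iff, map_div₀, map_pow, h, div_self h1]
  · rw [← O.valuation_le_one_iff, map_div₀, map_pow, h, div_self h1]

theorem partA7 (h6 : PartA6.{u}) : PartA7.{u, v} := by
  intro K Ω _ _ ι O hι e W hW z w hzw htr N x y hxy f hf
  have hw2 := w_sq e W hW ι z w hzw
  have hz1 : ∀ c : K, z - ι c ≠ 0 := by
    intro c
    have := htr (X - C c) (X_sub_C_ne_zero c)
    simpa using this
  have hw0 : w ≠ 0 := by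
    intro h
    rw [h] at hw2
    have := mul_ne_zero (mul_ne_zero (hz1 (e 0)) (hz1 (e 1))) (hz1 (e 2))
    exact this (by rw [← hw2]; ring)
  have hwy : w - ι y ≠ 0 := by
    intro h
    have h2 : (cub e - C (y ^ 2)).eval₂ ι z = 0 := by
      unfold cub
      rw [Fin.prod_univ_three]
      simp only [eval₂_sub, eval₂_mul, eval₂_X, eval₂_C]
      rw [← hw2, map_pow]
      linear_combination (w + ι y) * h
    refine htr _ ?_ h2
    intro h3
    have h4 : (cub e).natDegree = 3 := by
      unfold cub
      rw [natDegree_prod_of_monic _ _ fun i _ => monic_X_sub_C _]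
      simp
    rw [sub_eq_zero] at h3
    rw [h3, natDegree_C] at h4
    omega
  have hz0 : z ≠ 0 := by simpa using hz1 0
  by_cases hzO : z ∈ O
  · -- the affine case
    have hwO : w ∈ O := by
      rw [← O.valuation_le_one_iff]
      have h1 : O.valuation w ^ 2 ≤ 1 := by
        rw [← map_pow, O.valuation_le_one_iff, hw2]
        exact O.mul_mem _ _ (O.mul_mem _ _ (sub_mem hzO (hι _)) (sub_mem hzO (hι _)))
          (sub_mem hzO (hι _))
      exact (pow_le_one_iff two_ne_zero).1 h1
    have hev : ∀ p : K[X], p.eval₂ ι z ∈ O := by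
      intro p
      rw [eval₂_eq_sum_range]
      exact sum_mem fun i _ => O.mul_mem _ _ (hι _) (pow_mem hzO _)
    have hall : ∀ g : W.CoordinateRing, ev W ι z w hzw g ∈ O.toSubring := by
      intro g
      obtain ⟨p, q, rfl⟩ := exists_smul_basis_eq g
      rw [ev_basis]
      exact O.add_mem _ _ (hev p) (O.mul_mem _ _ (hev q) hwO)
    set ev' : W.CoordinateRing →+* O := (ev W ι z w hzw).codRestrict O.toSubring hall with hev'
    have hcoe : ∀ g, ((ev' g : O) : Ω) = ev W ι z w hzw g := fun g => rfl
    have key : ∀ s : O, Ideal.map ev' (XYIdeal W x (C y)) = Ideal.span {s} →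
        (s : Ω) ≠ 0 → ev W ι z w hzw f / (s : Ω) ^ N ∈ O ∧
          (s : Ω) ^ N / ev W ι z w hzw f ∈ O := by
      intro s hs hs0
      refine finish O _ _ N hs0 ?_
      have h1 : Ideal.span {ev' f} = Ideal.span {s ^ N} := by
        rw [← Ideal.span_singleton_pow, ← hs, ← Ideal.map_pow, hf, Ideal.map_span,
          Set.image_singleton]
      obtain ⟨a, ha⟩ := Ideal.span_singleton_eq_span_singleton.1 h1
      have h2 : ev W ι z w hzw f * ((a : O) : Ω) = (s : Ω) ^ N := by
        have := congrArg (fun t : O => (t : Ω)) ha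
        simpa [hcoe] using this
      rw [← map_pow, ← h2, map_mul, O.valuation_unit a, mul_one]
    have hI : Ideal.map ev' (XYIdeal W x (C y)) =
        Ideal.span {ev' (XClass W x), ev' (YClass W (C y))} := by
      unfold XYIdeal
      rw [Ideal.map_span, Set.image_pair]
    have hX : ((ev' (XClass W x) : O) : Ω) = z - ι x := by rw [hcoe, ev_X]
    have hY : ((ev' (YClass W (C y)) : O) : Ω) = w - ι y := by rw [hcoe, ev_Y]
    rcases ValuationRing.dvd_total (ev' (XClass W x)) (ev' (YClass W (C y))) with hd | hd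
    · have h1 := key (ev' (XClass W x)) (by
        rw [hI, Ideal.span_pair_comm]
        exact Ideal.span_pair_eq_span_right_iff_dvd.2 hd) (by rw [hX]; exact hz1 x)
      rw [hX] at h1
      exact ⟨z - ι x, Or.inl rfl, hz1 x, h1⟩
    · have h1 := key (ev' (YClass W (C y))) (by
        rw [hI]
        exact Ideal.span_pair_eq_span_right_iff_dvd.2 hd) (by rw [hY]; exact hwy)
      rw [hY] at h1
      exact ⟨w - ι y, Or.inr (Or.inl rfl), hwy, h1⟩
  · -- the place at infinity
    have hzv : 1 < O.valuation z := by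
      rw [← O.valuation_le_one_iff] at hzO
      exact not_le.1 hzO
    have hzc : ∀ c : K, O.valuation (z - ι c) = O.valuation z := by
      intro c
      have := val_eval O ι hι z hzv (X - C c) (X_sub_C_ne_zero c)
      simpa using this
    set τ := O.valuation (w / z) with hτ
    have hvz0 : O.valuation z ≠ 0 := (Valuation.ne_zero_iff _).2 hz0
    have hvw2 : O.valuation w ^ 2 = O.valuation z ^ 3 := by
      rw [← map_pow, hw2, map_mul, map_mul, hzc, hzc, hzc, pow_succ, pow_two]
    have hτ2 : τ ^ 2 = O.valuation z := by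
      rw [hτ, map_div₀, div_pow, hvw2]
      rw [div_eq_iff (pow_ne_zero _ hvz0)]
      exact pow_succ' _ _
    have hτw : O.valuation w = τ ^ 3 := by
      have h1 : O.valuation w = τ * O.valuation z := by
        rw [hτ, map_div₀, div_mul_cancel₀ _ hvz0]
      rw [h1, ← hτ2]
      exact (pow_succ' _ _).symm
    have hτ1 : 1 < τ := by
      by_contra h
      have h1 : τ ^ 2 ≤ 1 := pow_le_one₀ zero_le (not_lt.1 h)
      rw [hτ2] at h1
      exact absurd hzv (not_lt.2 h1)
    refine ⟨w / z, Or.inr (Or.inr rfl), div_ne_zero hw0 hz0, finish O _ _ N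
      (div_ne_zero hw0 hz0) ?_⟩
    rw [← hτ]
    obtain ⟨c, a, ha, hca, hnorm⟩ := h6 K e W hW N x y hxy f hf
    have hc : c ≠ 0 := by
      rcases hca with h | h
      · rw [h]; exact pow_ne_zero _ ha
      · rw [h]; exact neg_ne_zero.2 (pow_ne_zero _ ha)
    have hdeg : (Algebra.norm K[X] f).degree = (N : WithBot ℕ) := by
      rw [hnorm, degree_C_mul hc, degree_pow, degree_X_sub_C]
      simp
    obtain ⟨p, q, rfl⟩ := exists_smul_basis_eq f
    rw [degree_norm_smul_basis] at hdeg
    rw [ev_basis]
    have hvp : p ≠ 0 → O.valuation (p.eval₂ ι z) = τ ^ (2 * p.natDegree) := by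
      intro hp
      rw [val_eval O ι hι z hzv p hp, ← hτ2, ← pow_mul]
    have hvq : q ≠ 0 → O.valuation (q.eval₂ ι z * w) = τ ^ (2 * q.natDegree + 3) := by
      intro hq
      rw [map_mul, val_eval O ι hι z hzv q hq, hτw, ← hτ2, ← pow_mul, ← pow_add]
    by_cases hp : p = 0
    · by_cases hq : q = 0
      · rw [hp, hq] at hdeg
        simp at hdeg
      · rw [hp, degree_zero, degree_eq_natDegree hq] at hdeg
        have h1 : N = 2 * q.natDegree + 3 := by
          have h2 : ((2 * q.natDegree + 3 : ℕ) : WithBot ℕ) = (N : WithBot ℕ) := by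
            rw [← hdeg]
            simp
          exact_mod_cast h2.symm
        rw [hp, eval₂_zero, zero_add, hvq hq, h1]
    · by_cases hq : q = 0
      · rw [hq, degree_zero, degree_eq_natDegree hp] at hdeg
        have h1 : N = 2 * p.natDegree := by
          have h2 : ((2 * p.natDegree : ℕ) : WithBot ℕ) = (N : WithBot ℕ) := by
            rw [← hdeg]
            simp
          exact_mod_cast h2.symm
        rw [hq, eval₂_zero, zero_mul, add_zero, hvp hp, h1]
      · rw [degree_eq_natDegree hp, degree_eq_natDegree hq] at hdeg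
        have h1 : N = max (2 * p.natDegree) (2 * q.natDegree + 3) := by
          have h2 : ((max (2 * p.natDegree) (2 * q.natDegree + 3) : ℕ) : WithBot ℕ) =
              (N : WithBot ℕ) := by
            rw [← hdeg]
            rcases le_total (2 * p.natDegree) (2 * q.natDegree + 3) with h | h
            · have h' : (2 • (p.natDegree : WithBot ℕ)) ≤ 2 • (q.natDegree : WithBot ℕ) + 3 := by
                simp only [nsmul_eq_mul]
                exact_mod_cast h
              rw [max_eq_right h, max_eq_right h']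
              simp
            · have h' : 2 • (q.natDegree : WithBot ℕ) + 3 ≤ (2 • (p.natDegree : WithBot ℕ)) := by
                simp only [nsmul_eq_mul]
                exact_mod_cast h
              rw [max_eq_left h, max_eq_left h']
              simp
          exact_mod_cast h2.symm
        rcases lt_or_gt_of_ne (show 2 * p.natDegree ≠ 2 * q.natDegree + 3 by omega) with h3 | h3
        · rw [Valuation.map_add_eq_of_lt_right _ (by
            rw [hvp hp, hvq hq]
            exact pow_lt_pow_right₀ hτ1 h3), hvq hq, h1, max_eq_right h3.le]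
        · rw [Valuation.map_add_eq_of_lt_left _ (by
            rw [hvp hp, hvq hq]
            exact pow_lt_pow_right₀ hτ1 h3), hvp hp, h1, max_eq_left h3.le]

end Pool.Agent.W368.SecC
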